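import Pool.Agent.H48.SymDP.Irr.Field

/-!
# The first coordinate is not a function of the parameter of a conic structure
-/

open Polynomial

namespace Pool.Agent.H48.SymDP

lemma ratFuncX_ne {k : Type} [Field k] {a b : k} (hb : b ≠ 0)
    (h : (RatFunc.X : RatFunc k) * RatFunc.C b = RatFunc.C a) : False := by
  rw [← RatFunc.algebraMap_X, ← RatFunc.algebraMap_C, ← RatFunc.algebraMap_C, ← map_mul] at h
  have h1 := RatFunc.algebraMap_injective k h
  have h2 := congrArg natDegree h1
  rw [natDegree_C, natDegree_X_mul (C_ne_zero.2 hb), natDegree_C] at h2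
  simp at h2

lemma exists_C {k : Type} [Field k] (x : RatFunc (RatFunc k)) (a b : k[X]) (hb : aeval x b ≠ 0)
    (hu : RatFunc.C (RatFunc.X : RatFunc k) * aeval x b = aeval x a) :
    ∃ x₁ : RatFunc k, x = RatFunc.C x₁ ∧ RatFunc.X * aeval x₁ b = aeval x₁ a ∧
      aeval x₁ b ≠ 0 := by
  have hb0 : b ≠ 0 := by rintro rfl; simp at hb
  have hx : ∃ c, x = RatFunc.C c := by
    by_contra hne
    have htr := RatFunc.transcendental_of_ne_C x hne
    have hq : aeval x (C (RatFunc.X : RatFunc k) * b.map (algebraMap k (RatFunc k)) -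
        a.map (algebraMap k (RatFunc k))) = 0 := by
      rw [map_sub, map_mul, aeval_C, aeval_map_algebraMap, aeval_map_algebraMap, sub_eq_zero,
        RatFunc.algebraMap_eq_C]
      exact hu
    have h0 := (transcendental_iff.1 htr) _ hq
    rw [sub_eq_zero] at h0
    obtain ⟨i, hi⟩ : ∃ i, b.coeff i ≠ 0 := by
      by_contra hcon
      push Not at hcon
      exact hb0 (Polynomial.ext (fun n => by simpa using hcon n))
    have h1 := congrArg (fun p => coeff p i) h0
    simp only [coeff_C_mul, coeff_map] at h1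
    exact ratFuncX_ne hi h1
  obtain ⟨x₁, rfl⟩ := hx
  have e : ∀ p : k[X], aeval (RatFunc.C x₁ : RatFunc (RatFunc k)) p =
      RatFunc.C (aeval x₁ p) := fun p => by
    rw [← RatFunc.algebraMap_eq_C, aeval_algebraMap_apply, RatFunc.algebraMap_eq_C]
  rw [e] at hb hu
  rw [e, ← map_mul] at hu
  refine ⟨x₁, rfl, RatFunc.C.injective hu, fun h0 => hb (by rw [h0, map_zero])⟩

lemma adjoin_eq_top {k : Type} [Field k] (x₁ : RatFunc k) (a b : k[X]) (hb : aeval x₁ b ≠ 0)
    (hu : RatFunc.X * aeval x₁ b = aeval x₁ a) :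
    Transcendental k x₁ ∧ IntermediateField.adjoin k {x₁} = ⊤ := by
  constructor
  · refine RatFunc.transcendental_of_ne_C x₁ ?_
    rintro ⟨c, rfl⟩
    have e : ∀ p : k[X], aeval (RatFunc.C c : RatFunc k) p = RatFunc.C (p.eval c) := fun p => by
      rw [← RatFunc.algebraMap_eq_C, aeval_algebraMap_apply, RatFunc.algebraMap_eq_C,
        coe_aeval_eq_eval]
    rw [e] at hb hu
    rw [e] at hu
    exact ratFuncX_ne (fun h0 => hb (by rw [h0, map_zero])) hu
  · rw [_root_.eq_top_iff, ← RatFunc.adjoin_X, IntermediateField.adjoin_simple_le_iff]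
    rw [IntermediateField.mem_adjoin_simple_iff]
    exact ⟨a, b, by rw [eq_div_iff hb]; exact hu⟩

/-- The first coordinate of a conic structure is not a function of the parameter. -/
theorem Conic.not_const {θ : AlgebraicClosure ℚ} {κ₁ : ℚ}
    {x y z : RatFunc (RatFunc (AlgebraicClosure ℚ))} (h : Conic θ κ₁ x y z)
    (a b : (AlgebraicClosure ℚ)[X]) (hb : aeval x b ≠ 0)
    (hu : RatFunc.C (RatFunc.X : RatFunc (AlgebraicClosure ℚ)) * aeval x b = aeval x a) :
    False := by
  obtain ⟨x₁, rfl, hu₁, hb₁⟩ := exists_C x a b hb hu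
  obtain ⟨htr, htop⟩ := adjoin_eq_top x₁ a b hb₁ hu₁
  have hinj := transcendental_iff_injective.1 htr
  set P := PK (AlgebraicClosure ℚ) κ₁ with hP
  have hPne : P ≠ 0 := PK_ne h.kappa
  -- the automorphism
  obtain ⟨x₀, hx₀⟩ := exists_root h.kappa
  obtain ⟨g, hg, hgx⟩ := exists_flip h.theta ((eval_PK h.kappa x₀).1 hx₀)
  -- the norm of `w`
  set w : RatFunc (RatFunc (AlgebraicClosure ℚ)) :=
    y + algebraMap (AlgebraicClosure ℚ) _ θ * z with hw
  have hgw : gL g w = y - algebraMap (AlgebraicClosure ℚ) _ θ * z := by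
    rw [hw, map_add, map_mul, gL_algebraMap, h.y_fix, h.z_fix, hg, map_neg]
    ring
  have hθ : (algebraMap (AlgebraicClosure ℚ) (RatFunc (RatFunc (AlgebraicClosure ℚ))) θ) ^ 2 =
      -3 := by
    rw [← map_pow, h.theta, map_neg, map_ofNat]
  have e : ∀ p : (AlgebraicClosure ℚ)[X],
      aeval (RatFunc.C x₁ : RatFunc (RatFunc (AlgebraicClosure ℚ))) p =
      RatFunc.C (aeval x₁ p) := fun p => by
    rw [← RatFunc.algebraMap_eq_C, aeval_algebraMap_apply, RatFunc.algebraMap_eq_C]
  have hnorm : w * gL g w = RatFunc.C (aeval x₁ P) := by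
    have h1 : w * gL g w = y ^ 2 + 3 * z ^ 2 := by
      rw [hgw, hw]
      linear_combination (-z ^ 2) * hθ
    rw [h1, h.rel, ← e, hP, PK_eq]
    simp only [map_mul, map_add, map_pow, aeval_X, aeval_C, map_ofNat]
  -- the fixed element
  have hgx₁ : gF g x₁ = x₁ := by
    have h1 := h.x_fix g
    rw [gL, rfMap_C] at h1
    exact RatFunc.C.injective h1
  have hw0 : w ≠ 0 := by
    intro h0
    rw [h0, zero_mul] at hnorm
    have h1 : aeval x₁ P = 0 := RatFunc.C.injective (by rw [← hnorm, map_zero])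
    exact hPne (hinj (by rw [h1, map_zero]))
  -- numerator and denominator
  set p := w.num with hp
  set q := w.denom with hq
  have hp0 : p ≠ 0 := RatFunc.num_ne_zero hw0
  have hq0 : q ≠ 0 := RatFunc.denom_ne_zero w
  have hwpq : w * algebraMap _ _ q = algebraMap _ _ p := by
    have h1 := RatFunc.num_div_denom w
    have h2 : algebraMap (RatFunc (AlgebraicClosure ℚ))[X]
        (RatFunc (RatFunc (AlgebraicClosure ℚ))) q ≠ 0 :=
      fun h3 => hq0 (RatFunc.algebraMap_injective _ (by rw [h3, map_zero]))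
    rw [div_eq_iff h2] at h1
    exact h1.symm
  have hgwpq : gL g w * algebraMap _ _ (q.map (gF g)) = algebraMap _ _ (p.map (gF g)) := by
    have h1 := congrArg (gL g) hwpq
    rw [map_mul, gL, rfMap_algebraMap, rfMap_algebraMap] at h1
    exact h1
  have hpoly : p * p.map (gF g) = C (aeval x₁ P) * (q * q.map (gF g)) := by
    apply RatFunc.algebraMap_injective
    rw [map_mul, map_mul, map_mul, ← hwpq, ← hgwpq, RatFunc.algebraMap_C, ← hnorm]
    ring
  have hlead := congrArg leadingCoeff hpoly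
  rw [leadingCoeff_mul, leadingCoeff_mul, leadingCoeff_mul, leadingCoeff_C, leadingCoeff_map,
    leadingCoeff_map] at hlead
  -- the quotient of the leading coefficients
  have hξ : q.leadingCoeff ≠ 0 := leadingCoeff_ne_zero.2 hq0
  have hζ : p.leadingCoeff ≠ 0 := leadingCoeff_ne_zero.2 hp0
  set r := p.leadingCoeff / q.leadingCoeff with hr
  have hr0 : r ≠ 0 := div_ne_zero hζ hξ
  have hrr : r * gF g r = aeval x₁ P := by
    have h1 : gF g q.leadingCoeff ≠ 0 := (_root_.map_ne_zero _).2 hξ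
    rw [hr, map_div₀, div_mul_div_comm, div_eq_iff (mul_ne_zero hξ h1)]
    exact hlead
  obtain ⟨c, d, hcd⟩ := (IntermediateField.mem_adjoin_simple_iff (AlgebraicClosure ℚ) r).1
    (by rw [htop]; exact IntermediateField.mem_top)
  have hd : aeval x₁ d ≠ 0 := by
    intro h0
    rw [h0, div_zero] at hcd
    exact hr0 hcd
  have hc : aeval x₁ c ≠ 0 := by
    intro h0
    rw [h0, zero_div] at hcd
    exact hr0 hcd
  have hgae : ∀ s : (AlgebraicClosure ℚ)[X], gF g (aeval x₁ s) =
      aeval x₁ (s.map (g : AlgebraicClosure ℚ →+* AlgebraicClosure ℚ)) := by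
    intro s
    rw [aeval_def, aeval_def, hom_eval₂, eval₂_map, hgx₁]
    congr 1
    ext t
    show gF g (algebraMap (AlgebraicClosure ℚ) _ t) = algebraMap (AlgebraicClosure ℚ) _ (g t)
    rw [RatFunc.algebraMap_eq_C, gF, rfMap_C]
    rfl
  have hfin : c * c.map (g : AlgebraicClosure ℚ →+* AlgebraicClosure ℚ) =
      P * (d * d.map (g : AlgebraicClosure ℚ →+* AlgebraicClosure ℚ)) := by
    apply hinj
    have hgd : aeval x₁ (d.map (g : AlgebraicClosure ℚ →+* AlgebraicClosure ℚ)) ≠ 0 := by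
      rw [← hgae]
      exact (_root_.map_ne_zero _).2 hd
    rw [map_mul, map_mul, map_mul, ← hrr, hcd, map_div₀, hgae, hgae]
    field_simp
  have hc0 : c ≠ 0 := by rintro rfl; simp at hc
  have hd0 : d ≠ 0 := by rintro rfl; simp at hd
  have hem := congrArg (em x₀) hfin
  have hmap : ∀ s : (AlgebraicClosure ℚ)[X],
      em x₀ (s.map (g : AlgebraicClosure ℚ →+* AlgebraicClosure ℚ)) = em x₀ s := by
    intro s
    have h1 := em_map (g : AlgebraicClosure ℚ ≃+* AlgebraicClosure ℚ) x₀ s
    have h2 : (g : AlgebraicClosure ℚ ≃+* AlgebraicClosure ℚ) x₀ = x₀ := hgx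
    rw [h2] at h1
    exact h1
  rw [em_mul, em_mul, em_mul, hmap, hmap, hP, em_PK h.kappa hx₀] at hem
  obtain ⟨n, hn⟩ := ENat.ne_top_iff_exists.1 (em_ne_top (x₀ := x₀) hc0)
  obtain ⟨m, hm⟩ := ENat.ne_top_iff_exists.1 (em_ne_top (x₀ := x₀) hd0)
  rw [← hn, ← hm] at hem
  have h9 : n + n = 1 + (m + m) := by exact_mod_cast hem
  omega

end Pool.Agent.H48.SymDP
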